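import Pool.Agent.P8H3.EF.Stm

/-!
# Project EF, package NRM: the resultant with a cyclotomic polynomial
-/

set_option autoImplicit false

open Polynomial

namespace Pool.Agent.P8H76.EF

/-- Package NRM of the project EF. -/
theorem nrm : Pool.Agent.P8H3.EF.S_NRM := by
  intro o Q H x g ho hΦ hg hH hQ
  have hφ : 0 < o.totient := Nat.totient_pos.2 ho
  have hdeg : (cyclotomic o ℤ).natDegree = o.totient := natDegree_cyclotomic o ℤ
  have hQ0 : NeZero Q := ⟨by omega⟩
  obtain ⟨r, hr⟩ : ∃ r : ℤ, r = resultant (cyclotomic o ℤ) g (cyclotomic o ℤ).natDegree g.natDegree :=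
    ⟨_, rfl⟩
  obtain ⟨p, q, -, -, hpq⟩ := exists_mul_add_mul_eq_C_resultant (cyclotomic o ℤ) g le_rfl
    (le_refl g.natDegree) (Or.inl (by rw [hdeg]; omega))
  rw [← hr] at hpq
  have hdvd : (Q : ℤ) ∣ r := by
    rw [← ZMod.intCast_zmod_eq_zero_iff_dvd]
    have := congrArg (aeval x) hpq
    rw [map_add, map_mul, map_mul, hΦ, hg, zero_mul, zero_mul, add_zero, aeval_C] at this
    simpa using this.symm
  -- the resultant is the product of the values
  have hr1 : (r : ℂ) = (((cyclotomic o ℂ).roots).map (g.map (Int.castRingHom ℂ)).eval).prod := by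
    have h1 := resultant_map_map (cyclotomic o ℤ) g (cyclotomic o ℤ).natDegree g.natDegree
      (Int.castRingHom ℂ)
    rw [map_cyclotomic, ← hr, hdeg] at h1
    have h2 := resultant_eq_prod_eval (cyclotomic o ℂ) (g.map (Int.castRingHom ℂ)) g.natDegree
      natDegree_map_le (IsAlgClosed.splits _)
    rw [natDegree_cyclotomic, (cyclotomic.monic o ℂ).leadingCoeff, one_pow, one_mul] at h2
    rw [← h2, h1]
    rfl
  have hval : ∀ α ∈ (cyclotomic o ℂ).roots, ‖(g.map (Int.castRingHom ℂ)).eval α‖ ≤ (H : ℝ) := by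
    intro α hα
    have hroot : IsPrimitiveRoot α o := by
      have : NeZero (o : ℂ) := ⟨by exact_mod_cast ho.ne'⟩
      rw [mem_roots (cyclotomic_ne_zero o ℂ)] at hα
      exact isRoot_cyclotomic_iff.1 hα
    have hnorm : ‖α‖ = 1 := Complex.norm_eq_one_of_pow_eq_one hroot.pow_eq_one ho.ne'
    rw [eval_map, eval₂_eq_sum, Polynomial.sum]
    calc ‖∑ e ∈ g.support, (Int.castRingHom ℂ) (g.coeff e) * α ^ e‖
        ≤ ∑ e ∈ g.support, ‖(Int.castRingHom ℂ) (g.coeff e) * α ^ e‖ := norm_sum_le _ _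
      _ = ∑ e ∈ g.support, ((|g.coeff e| : ℤ) : ℝ) := by
          refine Finset.sum_congr rfl fun e _ => ?_
          rw [norm_mul, norm_pow, hnorm, one_pow, mul_one, eq_intCast, Complex.norm_intCast,
            Int.cast_abs]
      _ ≤ (H : ℝ) := by
          rw [← Int.cast_sum]
          exact_mod_cast hH
  have hcard : Multiset.card (cyclotomic o ℂ).roots = o.totient := by
    rw [← (IsAlgClosed.splits (cyclotomic o ℂ)).natDegree_eq_card_roots, natDegree_cyclotomic]
  have hprod : ∀ s : Multiset ℂ, (∀ α ∈ s, ‖(g.map (Int.castRingHom ℂ)).eval α‖ ≤ (H : ℝ)) →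
      ‖(s.map (g.map (Int.castRingHom ℂ)).eval).prod‖ ≤ (H : ℝ) ^ Multiset.card s := by
    intro s
    induction s using Multiset.induction_on with
    | empty => intro _; simp
    | cons a s ih =>
      intro h
      rw [Multiset.map_cons, Multiset.prod_cons, Multiset.card_cons, pow_succ', norm_mul]
      exact mul_le_mul (h a (Multiset.mem_cons_self a s))
        (ih fun α hα => h α (Multiset.mem_cons_of_mem hα)) (norm_nonneg _) (by positivity)
  have hr2 : |r| ≤ (H : ℤ) ^ o.totient := by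
    have h1 := hprod _ hval
    rw [← hr1, hcard, Complex.norm_intCast] at h1
    exact_mod_cast h1
  have hr0 : r = 0 := by
    refine Int.eq_zero_of_abs_lt_dvd hdvd ?_
    refine lt_of_le_of_lt hr2 ?_
    exact_mod_cast hQ
  rw [hr0, Int.cast_zero] at hr1
  have hz := Multiset.prod_eq_zero_iff.1 hr1.symm
  obtain ⟨α, hα, hα0⟩ := Multiset.mem_map.1 hz
  have hroot : IsPrimitiveRoot α o := by
    have : NeZero (o : ℂ) := ⟨by exact_mod_cast ho.ne'⟩
    rw [mem_roots (cyclotomic_ne_zero o ℂ)] at hα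
    exact isRoot_cyclotomic_iff.1 hα
  rw [cyclotomic_eq_minpoly hroot ho]
  refine minpoly.isIntegrallyClosed_dvd (hroot.isIntegral ho) ?_
  rw [aeval_def, ← eval_map]
  exact hα0

end Pool.Agent.P8H76.EF
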