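import Pool.Agent.P8H3.EF.Stm

/-!
# Project EF, package TEI: roots of unity modulo `ℓ ^ a`
-/

set_option autoImplicit false

open Polynomial

namespace Pool.Agent.P8H76.EF

open Pool.Agent.P8H3.EF

/-- arithmetic of valuations -/
lemma dvd_of_lte {p : ℤ} {a n : ℕ} {x y z : ℤ}
    (h : emultiplicity p x = emultiplicity p y + emultiplicity p z) (hx : p ^ a ∣ x)
    (hz : ¬ p ^ (n + 1) ∣ z) : p ^ (a - n) ∣ y := by
  by_contra hy
  have h1 : emultiplicity p y < ((a - n : ℕ) : ℕ∞) := emultiplicity_lt_iff_not_dvd.2 hy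
  have h2 : emultiplicity p z < ((n + 1 : ℕ) : ℕ∞) := emultiplicity_lt_iff_not_dvd.2 hz
  have h3 : (a : ℕ∞) ≤ emultiplicity p x := pow_dvd_iff_le_emultiplicity.1 hx
  rw [h] at h3
  generalize emultiplicity p y = A at h1 h3
  generalize emultiplicity p z = B at h2 h3
  lift A to ℕ using (ne_top_of_lt h1)
  lift B to ℕ using (ne_top_of_lt h2)
  norm_cast at h1 h2 h3
  omega

/-- the cyclotomic polynomial at an element of exact order `m` modulo `ℓ` and order `m` modulo `ℓ ^ a` -/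
lemma cyclo_dvd {ℓ a m : ℕ} (hℓ : ℓ.Prime) (hm : 0 < m) (g : ℤ)
    (hord : ∀ d, 0 < d → d < m → ¬ (ℓ : ℤ) ∣ g ^ d - 1) (hg : (ℓ : ℤ) ^ a ∣ g ^ m - 1) :
    (ℓ : ℤ) ^ a ∣ (cyclotomic m ℤ).eval g := by
  have h1 : ∏ d ∈ m.divisors, (cyclotomic d ℤ).eval g = g ^ m - 1 := by
    rw [← eval_prod, prod_cyclotomic_eq_X_pow_sub_one hm]
    simp
  have h2 : ∏ d ∈ m.divisors, (cyclotomic d ℤ).eval g
      = (cyclotomic m ℤ).eval g * ∏ d ∈ m.divisors.erase m, (cyclotomic d ℤ).eval g :=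
    (Finset.mul_prod_erase _ _ (Nat.mem_divisors_self m hm.ne')).symm
  have hpr : Prime (ℓ : ℤ) := Nat.prime_iff_prime_int.1 hℓ
  have h3 : IsCoprime ((ℓ : ℤ) ^ a) (∏ d ∈ m.divisors.erase m, (cyclotomic d ℤ).eval g) := by
    refine IsCoprime.prod_right fun d hd => IsCoprime.pow_left ?_
    rw [Prime.coprime_iff_not_dvd hpr]
    intro hdvd
    have hd1 := Finset.mem_erase.1 hd
    have hdm : d ∣ m := Nat.dvd_of_mem_divisors hd1.2
    have hd0 : 0 < d := Nat.pos_of_mem_divisors hd1.2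
    refine hord d hd0 (lt_of_le_of_ne (Nat.le_of_dvd hm hdm) hd1.1) (hdvd.trans ?_)
    have h4 : cyclotomic d ℤ ∣ X ^ d - 1 := cyclotomic.dvd_X_pow_sub_one d ℤ
    have h5 := eval_dvd (x := g) h4
    simpa using h5
  rw [← h1, h2] at hg
  exact h3.dvd_of_dvd_mul_right hg

/-- Package TEI for `ℓ = 2`. -/
lemma tei_two (a : ℕ) (_ : 1 ≤ a) :
    ∃ g : ℕ, aeval (g : ZMod (2 ^ a)) (cyclotomic 2 ℤ) = 0 ∧
    g ^ 1 + 1 ≡ 0 [MOD 2 ^ a] ∧ g ^ 2 ≡ 1 [MOD 2 ^ a] ∧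
    (∀ n e u : ℕ, n < a → Even e → ¬ 2 ^ (n + 1) ∣ e → u.Coprime 2 → u ^ e ≡ 1 [MOD 2 ^ a] →
      ∃ j < 2, u ≡ g ^ j [MOD 2 ^ (a - n)]) ∧
    (∀ b : ℕ, 1 ≤ b → b ≤ a → 2 ≤ b → ∀ i < 2, ∀ j < 2, g ^ i ≡ g ^ j [MOD 2 ^ b] → i = j) := by
  have hpos : 1 ≤ 2 ^ a := Nat.one_le_two_pow
  have hg1 : 2 ^ a - 1 + 1 = 2 ^ a := Nat.sub_add_cancel hpos
  have hgZ : (((2 ^ a - 1 : ℕ)) : ℤ) = 2 ^ a - 1 := by push_cast [Nat.cast_sub hpos]; ring
  refine ⟨2 ^ a - 1, ?_, ?_, ?_, ?_, ?_⟩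
  · rw [cyclotomic_two, map_add, aeval_X, map_one]
    have : (((2 ^ a - 1 : ℕ)) : ZMod (2 ^ a)) + 1 = ((2 ^ a - 1 + 1 : ℕ) : ZMod (2 ^ a)) := by
      push_cast
      rfl
    rw [this, hg1, ZMod.natCast_self]
  · rw [pow_one, hg1]
    exact (Nat.modEq_zero_iff_dvd).2 dvd_rfl
  · rw [Nat.modEq_iff_dvd]
    push_cast [Nat.cast_sub hpos]
    exact ⟨2 - 2 ^ a, by ring⟩
  · intro n e u hn he hne hu hue
    have hu2 : ¬ (2 : ℤ) ∣ (u : ℤ) := by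
      intro h
      have : 2 ∣ u := by exact_mod_cast h
      have h1 := Nat.dvd_gcd this (dvd_refl 2)
      rw [hu] at h1
      omega
    have hodd : (2 : ℤ) ∣ (u : ℤ) - 1 := by omega
    have hlte := Int.two_pow_sub_pow (x := (u : ℤ)) (y := 1) hodd hu2 he
    have hdv : (2 : ℤ) ^ a ∣ (u : ℤ) ^ e - 1 ^ e := by
      have := (Nat.modEq_iff_dvd.1 hue.symm)
      push_cast at this
      rw [one_pow]
      exact this
    have h3 : (a : ℕ∞) ≤ emultiplicity (2 : ℤ) ((u : ℤ) ^ e - 1 ^ e) :=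
      pow_dvd_iff_le_emultiplicity.1 hdv
    have h2 : emultiplicity (2 : ℤ) (e : ℤ) < ((n + 1 : ℕ) : ℕ∞) := by
      refine emultiplicity_lt_iff_not_dvd.2 fun h => hne ?_
      exact_mod_cast h
    have h4 : (a : ℕ∞) + 1 ≤ emultiplicity (2 : ℤ) ((u : ℤ) + 1)
        + emultiplicity (2 : ℤ) ((u : ℤ) - 1) + emultiplicity (2 : ℤ) (e : ℤ) := by
      rw [← hlte]
      gcongr
    by_cases h5 : (4 : ℤ) ∣ (u : ℤ) - 1
    · refine ⟨0, by omega, ?_⟩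
      rw [pow_zero]
      refine (Nat.modEq_iff_dvd.2 ?_).symm
      push_cast
      by_contra hy
      have h6 : emultiplicity (2 : ℤ) ((u : ℤ) - 1) < ((a - n : ℕ) : ℕ∞) :=
        emultiplicity_lt_iff_not_dvd.2 hy
      have h7 : emultiplicity (2 : ℤ) ((u : ℤ) + 1) < ((2 : ℕ) : ℕ∞) :=
        emultiplicity_lt_iff_not_dvd.2 (by norm_num; omega)
      generalize emultiplicity (2 : ℤ) ((u : ℤ) - 1) = A at h6 h4
      generalize emultiplicity (2 : ℤ) ((u : ℤ) + 1) = B at h7 h4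
      generalize emultiplicity (2 : ℤ) (e : ℤ) = C at h2 h4
      lift A to ℕ using (ne_top_of_lt h6)
      lift B to ℕ using (ne_top_of_lt h7)
      lift C to ℕ using (ne_top_of_lt h2)
      norm_cast at h2 h4 h6 h7
      omega
    · refine ⟨1, by omega, ?_⟩
      rw [pow_one]
      refine (Nat.modEq_iff_dvd.2 ?_).symm
      rw [hgZ]
      push_cast
      have hd : (2 : ℤ) ^ (a - n) ∣ (u : ℤ) + 1 := by
        by_contra hy
        have h6 : emultiplicity (2 : ℤ) ((u : ℤ) + 1) < ((a - n : ℕ) : ℕ∞) :=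
          emultiplicity_lt_iff_not_dvd.2 hy
        have h7 : emultiplicity (2 : ℤ) ((u : ℤ) - 1) < ((2 : ℕ) : ℕ∞) :=
          emultiplicity_lt_iff_not_dvd.2 (by norm_num; omega)
        generalize emultiplicity (2 : ℤ) ((u : ℤ) - 1) = A at h7 h4
        generalize emultiplicity (2 : ℤ) ((u : ℤ) + 1) = B at h6 h4
        generalize emultiplicity (2 : ℤ) (e : ℤ) = C at h2 h4
        lift A to ℕ using (ne_top_of_lt h7)
        lift B to ℕ using (ne_top_of_lt h6)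
        lift C to ℕ using (ne_top_of_lt h2)
        norm_cast at h2 h4 h6 h7
        omega
      have h8 : (2 : ℤ) ^ (a - n) ∣ (2 : ℤ) ^ a := pow_dvd_pow 2 (Nat.sub_le a n)
      have : (u : ℤ) - (2 ^ a - 1) = (u + 1) - 2 ^ a := by ring
      rw [this]
      exact dvd_sub hd h8
  · intro b hb1 hba hb2 i hi j hj hij
    by_contra hne
    have h4 : (4 : ℕ) ∣ 2 ^ b := by
      have := pow_dvd_pow 2 hb2
      simpa using this
    have h4a : (4 : ℤ) ∣ 2 ^ a := by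
      have := pow_dvd_pow (2 : ℤ) (hb2.trans hba)
      norm_num at this
      exact this
    have hkey : ¬ (4 : ℤ) ∣ ((2 : ℤ) ^ a - 1) - 1 := by omega
    have hm := Nat.ModEq.of_dvd h4 hij
    rw [Nat.modEq_iff_dvd] at hm
    push_cast [Nat.cast_sub hpos] at hm
    interval_cases i <;> interval_cases j <;> first | exact hne rfl | skip
    · simp only [pow_one, pow_zero] at hm
      exact hkey hm
    · simp only [pow_one, pow_zero] at hm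
      exact hkey ((dvd_sub_comm).1 hm)

/-- Package TEI for odd `ℓ`. -/
lemma tei_odd (ℓ a : ℕ) (hℓ : ℓ.Prime) (h2 : ℓ ≠ 2) (ha : 1 ≤ a) :
    ∃ g : ℕ, aeval (g : ZMod (ℓ ^ a)) (cyclotomic (ℓ - 1) ℤ) = 0 ∧
    g ^ ((ℓ - 1) / 2) + 1 ≡ 0 [MOD ℓ ^ a] ∧ g ^ (ℓ - 1) ≡ 1 [MOD ℓ ^ a] ∧
    (∀ n e u : ℕ, n < a → Even e → ¬ ℓ ^ (n + 1) ∣ e → u.Coprime ℓ → u ^ e ≡ 1 [MOD ℓ ^ a] →
      ∃ j < ℓ - 1, u ≡ g ^ j [MOD ℓ ^ (a - n)]) ∧
    (∀ b : ℕ, 1 ≤ b → b ≤ a → ∀ i < ℓ - 1, ∀ j < ℓ - 1, g ^ i ≡ g ^ j [MOD ℓ ^ b] → i = j) := by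
  have hF : Fact ℓ.Prime := ⟨hℓ⟩
  have hodd : Odd ℓ := hℓ.odd_of_ne_two h2
  have h3 : 3 ≤ ℓ := by
    have := hℓ.two_le
    omega
  obtain ⟨γ, hγ⟩ := IsCyclic.exists_generator (α := (ZMod ℓ)ˣ)
  have hord : orderOf γ = ℓ - 1 := by
    rw [orderOf_eq_card_of_forall_mem_zpowers hγ, Nat.card_eq_fintype_card, ZMod.card_units]
  obtain ⟨g0, hg0⟩ : ∃ g0 : ℕ, (g0 : ZMod ℓ) = (γ : ZMod ℓ) :=
    ⟨(γ : ZMod ℓ).val, ZMod.natCast_zmod_val _⟩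
  have hcop : g0.Coprime ℓ := by
    rw [← ZMod.isUnit_iff_coprime, hg0]
    exact γ.isUnit
  obtain ⟨g, hg⟩ : ∃ g : ℕ, g = g0 ^ ℓ ^ (a - 1) := ⟨_, rfl⟩
  have hgγ : (g : ZMod ℓ) = (γ : ZMod ℓ) := by
    rw [hg, Nat.cast_pow, ZMod.pow_card_pow, hg0]
  have hg1 : g ^ (ℓ - 1) ≡ 1 [MOD ℓ ^ a] := by
    have h1 := Nat.ModEq.pow_totient (Nat.Coprime.pow_right a hcop)
    rw [Nat.totient_prime_pow hℓ ha] at h1
    rw [hg, ← pow_mul]
    exact h1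
  have hg1Z : (ℓ : ℤ) ^ a ∣ (g : ℤ) ^ (ℓ - 1) - 1 := by
    have := Nat.modEq_iff_dvd.1 hg1.symm
    push_cast at this
    exact this
  -- the order modulo `ℓ`
  have hdv : ∀ d : ℕ, (ℓ : ℤ) ∣ (g : ℤ) ^ d - 1 → ℓ - 1 ∣ d := by
    intro d hd
    rw [← hord]
    apply orderOf_dvd_of_pow_eq_one
    apply Units.ext
    rw [Units.val_pow_eq_pow_val, ← hgγ, Units.val_one]
    have h1 := (ZMod.intCast_zmod_eq_zero_iff_dvd ((g : ℤ) ^ d - 1) ℓ).2 hd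
    push_cast at h1
    exact sub_eq_zero.1 h1
  have hdv' : ∀ d, 0 < d → d < ℓ - 1 → ¬ (ℓ : ℤ) ∣ (g : ℤ) ^ d - 1 := by
    intro d hd hd' h
    have := Nat.le_of_dvd hd (hdv d h)
    omega
  have hpr : Prime (ℓ : ℤ) := Nat.prime_iff_prime_int.1 hℓ
  have hgℓ : ¬ (ℓ : ℤ) ∣ (g : ℤ) := by
    intro h
    have h1 := (ZMod.intCast_zmod_eq_zero_iff_dvd (g : ℤ) ℓ).2 h
    push_cast at h1
    rw [hgγ] at h1
    exact γ.ne_zero h1
  refine ⟨g, ?_, ?_, hg1, ?_, ?_⟩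
  · have h1 := cyclo_dvd hℓ (by omega) (g : ℤ) hdv' hg1Z
    have hne : NeZero (ℓ ^ a) := ⟨pow_ne_zero a hℓ.ne_zero⟩
    have h2 : (((cyclotomic (ℓ - 1) ℤ).eval (g : ℤ) : ℤ) : ZMod (ℓ ^ a)) = 0 := by
      rw [ZMod.intCast_zmod_eq_zero_iff_dvd]
      push_cast
      exact h1
    have h3 : (g : ZMod (ℓ ^ a)) = Int.castRingHom (ZMod (ℓ ^ a)) (g : ℤ) := by simp
    rw [aeval_def, h3, show algebraMap ℤ (ZMod (ℓ ^ a)) = Int.castRingHom _ from rfl,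
      eval₂_at_apply]
    exact h2
  · have hhalf : (ℓ - 1) / 2 * 2 = ℓ - 1 := by
      obtain ⟨k, hk⟩ := hodd
      omega
    have h1 : ((g : ℤ) ^ ((ℓ - 1) / 2) - 1) * ((g : ℤ) ^ ((ℓ - 1) / 2) + 1)
        = (g : ℤ) ^ (ℓ - 1) - 1 := by
      have : (g : ℤ) ^ (ℓ - 1) = ((g : ℤ) ^ ((ℓ - 1) / 2)) ^ 2 := by rw [← pow_mul, hhalf]
      rw [this]
      ring
    have h2 : IsCoprime ((ℓ : ℤ) ^ a) ((g : ℤ) ^ ((ℓ - 1) / 2) - 1) := by
      refine IsCoprime.pow_left ?_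
      rw [Prime.coprime_iff_not_dvd hpr]
      exact hdv' _ (by omega) (by omega)
    have h3 : (ℓ : ℤ) ^ a ∣ (g : ℤ) ^ ((ℓ - 1) / 2) + 1 := by
      rw [← h1] at hg1Z
      exact h2.dvd_of_dvd_mul_left hg1Z
    rw [Nat.modEq_zero_iff_dvd]
    exact_mod_cast h3
  · intro n e u hn _ hne hu hue
    have hunit : IsUnit (u : ZMod ℓ) := (ZMod.isUnit_iff_coprime u ℓ).2 hu
    obtain ⟨υ, hυ⟩ := hunit
    obtain ⟨j, hj, hj'⟩ : ∃ j < ℓ - 1, γ ^ j = υ := by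
      have h1 := (mem_zpowers_iff_mem_range_orderOf).1 (hγ υ)
      rw [hord] at h1
      obtain ⟨j, hj, e⟩ := Finset.mem_image.1 h1
      exact ⟨j, Finset.mem_range.1 hj, e⟩
    refine ⟨j, hj, (Nat.modEq_iff_dvd.2 ?_).symm⟩
    push_cast
    have hx : (ℓ : ℤ) ∣ (u : ℤ) - (g : ℤ) ^ j := by
      rw [← ZMod.intCast_zmod_eq_zero_iff_dvd]
      push_cast
      rw [hgγ, ← Units.val_pow_eq_pow_val, hj', hυ, sub_self]
    have hu' : ¬ (ℓ : ℤ) ∣ (u : ℤ) := by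
      intro h
      have h1 : ℓ ∣ u := by exact_mod_cast h
      exact hℓ.one_lt.ne' (Nat.eq_one_of_dvd_coprimes hu h1 dvd_rfl)
    have hlte := Int.emultiplicity_pow_sub_pow hℓ hodd hx hu' (e * (ℓ - 1))
    have hem : emultiplicity ℓ (e * (ℓ - 1)) = emultiplicity (ℓ : ℤ) ((e * (ℓ - 1) : ℕ) : ℤ) :=
      (Int.natCast_emultiplicity ℓ (e * (ℓ - 1))).symm
    rw [hem] at hlte
    refine dvd_of_lte hlte ?_ ?_
    · have h1 : (ℓ : ℤ) ^ a ∣ ((u : ℤ) ^ e) ^ (ℓ - 1) - 1 := by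
        have h2 := (Nat.ModEq.pow (ℓ - 1) hue).symm
        rw [one_pow, Nat.modEq_iff_dvd] at h2
        push_cast at h2
        exact h2
      have h2 : (ℓ : ℤ) ^ a ∣ ((g : ℤ) ^ (ℓ - 1)) ^ (j * e) - 1 := by
        have h2 := (Nat.ModEq.pow (j * e) hg1).symm
        rw [one_pow, Nat.modEq_iff_dvd] at h2
        push_cast at h2
        exact h2
      have h3 : (u : ℤ) ^ (e * (ℓ - 1)) - ((g : ℤ) ^ j) ^ (e * (ℓ - 1))
          = (((u : ℤ) ^ e) ^ (ℓ - 1) - 1) - (((g : ℤ) ^ (ℓ - 1)) ^ (j * e) - 1) := by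
        rw [← pow_mul, ← pow_mul, ← pow_mul]
        have : j * (e * (ℓ - 1)) = (ℓ - 1) * (j * e) := by ring
        rw [this]
        ring
      rw [h3]
      exact dvd_sub h1 h2
    · intro h
      apply hne
      have h1 : ℓ ^ (n + 1) ∣ e * (ℓ - 1) := by exact_mod_cast h
      refine Nat.Coprime.dvd_of_dvd_mul_right (Nat.Coprime.pow_left _ ?_) h1
      rw [Nat.Prime.coprime_iff_not_dvd hℓ]
      intro h2
      have := Nat.le_of_dvd (by omega) h2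
      omega
  · intro b hb _ i hi j hj hij
    have h1 : ℓ ∣ ℓ ^ b := dvd_pow_self ℓ (by omega)
    have h2 := Nat.ModEq.of_dvd h1 hij
    have h3 := (ZMod.natCast_eq_natCast_iff _ _ _).2 h2
    push_cast at h3
    rw [hgγ, ← Units.val_pow_eq_pow_val, ← Units.val_pow_eq_pow_val] at h3
    have h4 : γ ^ i = γ ^ j := Units.ext h3
    exact pow_injOn_Iio_orderOf (x := γ) (by rw [hord]; exact hi) (by rw [hord]; exact hj) h4

/-- Package TEI of the project EF. -/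
theorem tei : S_TEI := by
  intro ℓ a hℓ ha
  by_cases h2 : ℓ = 2
  · subst h2
    obtain ⟨g, h1, h2, h3, h4, h5⟩ := tei_two a ha
    refine ⟨g, h1, h2, h3, h4, fun b hb1 hb2 hb3 => h5 b hb1 hb2 (hb3 rfl)⟩
  · have ho : oo ℓ = ℓ - 1 := if_neg h2
    obtain ⟨g, h1, h2, h3, h4, h5⟩ := tei_odd ℓ a hℓ h2 ha
    rw [ho]
    exact ⟨g, h1, h2, h3, h4, fun b hb1 hb2 _ => h5 b hb1 hb2⟩

end Pool.Agent.P8H76.EF
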